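import Pool.Agent.U890.SB.Core

/-!
# Open subsets of the Euclidean space with a standard end
-/

set_option autoImplicit false

open Set Filter Topology Metric Function MeasureTheory
open scoped Manifold ContDiff

noncomputable section

namespace Pool.Agent.U890.SB

open Pool.Agent.Y522 Pool.Agent.N550.KH Pool.Agent.N550.SH

variable {m : ℕ}

theorem contDiff_stP {r : ℝ} (hr : 0 < r) : ContDiff ℝ ∞ (stP r : E m → E (m + 1)) := by
  have h0 : (stP r : E m → E (m + 1)) = fun y =>
      (r * (‖y‖ ^ 2 - r ^ 2) / (‖y‖ ^ 2 + r ^ 2)) • (e0 : E (m + 1)) +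
        inc ((2 * r ^ 2 / (‖y‖ ^ 2 + r ^ 2)) • y) := by
    funext y
    unfold stP
    rw [cn_eq, inc_apply]
  rw [h0]
  have h1 : ContDiff ℝ ∞ fun y : E m => r * (‖y‖ ^ 2 - r ^ 2) / (‖y‖ ^ 2 + r ^ 2) := by
    refine ContDiff.div ?_ ?_ fun y => (den_pos hr y).ne'
    · exact contDiff_const.mul ((contDiff_norm_sq ℝ).sub contDiff_const)
    · exact (contDiff_norm_sq ℝ).add contDiff_const
  have h2 : ContDiff ℝ ∞ fun y : E m => (2 * r ^ 2 / (‖y‖ ^ 2 + r ^ 2)) • y := by
    refine ContDiff.smul (ContDiff.div contDiff_const ?_ fun y => (den_pos hr y).ne') contDiff_id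
    exact (contDiff_norm_sq ℝ).add contDiff_const
  exact (h1.smul contDiff_const).add ((inc (m := m)).contDiff.comp h2)

theorem contDiffAt_stT {r : ℝ} {p : E (m + 1)} (hp : p 0 ≠ r) :
    ContDiffAt ℝ ∞ (stT r : E (m + 1) → E m) p := by
  unfold stT
  refine ContDiffAt.smul (f := fun p : E (m + 1) => r / (r - p 0))
    (g := fun p : E (m + 1) => (tl p : E m)) ?_ (tl (m := m)).contDiff.contDiffAt
  refine ContDiffAt.div contDiffAt_const ?_ (fun h => hp (by linarith))
  fun_prop

/-- the defining function -/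
def th (a b r t : ℝ) : ℝ :=
  Real.smoothTransition ((t - a) / (b - a)) * (t - r ^ 2) -
    (1 - Real.smoothTransition ((t - a) / (b - a)))

theorem contDiff_th (a b r : ℝ) : ContDiff ℝ ∞ (th a b r) := by
  unfold th
  have h : ContDiff ℝ ∞ fun t : ℝ => Real.smoothTransition ((t - a) / (b - a)) :=
    Real.smoothTransition.contDiff.comp ((contDiff_id.sub contDiff_const).div_const _)
  exact (h.mul (contDiff_id.sub contDiff_const)).sub (contDiff_const.sub h)

theorem th_low {a b r t : ℝ} (hab : a < b) (ht : t ≤ a) : th a b r t = -1 := by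
  unfold th
  rw [Real.smoothTransition.zero_of_nonpos (div_nonpos_of_nonpos_of_nonneg (by linarith)
    (by linarith))]
  ring

theorem th_high {a b r t : ℝ} (hab : a < b) (ht : b ≤ t) : th a b r t = t - r ^ 2 := by
  unfold th
  rw [Real.smoothTransition.one_of_one_le ((one_le_div (by linarith)).2 (by linarith))]
  ring

theorem th_neg {a b r t : ℝ} (ht : t < r ^ 2) : th a b r t < 0 := by
  unfold th
  have h1 := Real.smoothTransition.nonneg ((t - a) / (b - a))
  have h2 := Real.smoothTransition.le_one ((t - a) / (b - a))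
  rcases h2.lt_or_eq with h | h
  · nlinarith
  · rw [h]; linarith

/-- **Mazur's theorem**: a manifold with a standard end which embeds in the Euclidean space is
exhausted by open cells. -/
theorem eng_of_embedding (X : Type) [TopologicalSpace X] [ChartedSpace (E (m + 1)) X]
    [IsManifold (𝓡 (m + 1)) ∞ X] (H : X ≃ₜ E (m + 1)) (R : ℝ)
    (hH : ∀ x, R < ‖H x‖ → LD (m + 1) H x) (i : X → E (m + 1)) (hi : Injective i)
    (hil : ∀ x, LD (m + 1) i x) : Eng (m + 1) X := by
  intro K hK
  obtain ⟨r, hrR, hr2, hrK⟩ : ∃ r : ℝ, R + 2 < r ∧ 2 < r ∧ ∀ x ∈ K, ‖H x‖ < r := by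
    obtain ⟨s, hs⟩ := (hK.image H.continuous).isBounded.subset_ball (0 : E (m + 1))
    refine ⟨max s (max R 0 + 3), ?_, ?_, fun x hx => ?_⟩
    · have h1 : max R 0 + 3 ≤ max s (max R 0 + 3) := le_max_right _ _
      have h2 : R ≤ max R 0 := le_max_left _ _
      linarith
    · have h1 : max R 0 + 3 ≤ max s (max R 0 + 3) := le_max_right _ _
      have h2 : 0 ≤ max R 0 := le_max_right _ _
      linarith
    · have h1 := hs ⟨x, hx, rfl⟩
      rw [mem_ball_zero_iff] at h1
      exact h1.trans_le (le_max_left _ _)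
  have hr0 : 0 < r := by linarith
  set R₁ : ℝ := max R 0 + 1 / 2 with hR₁
  set R₂ : ℝ := max R 0 + 1 with hR₂
  have hm0 : 0 ≤ max R 0 := le_max_right _ _
  have hmR : R ≤ max R 0 := le_max_left _ _
  have hR₂r : R₂ < r := by
    rcases max_cases R 0 with ⟨h, -⟩ | ⟨h, -⟩ <;> rw [hR₂, h] <;> linarith
  have hab : R₁ ^ 2 < R₂ ^ 2 := by nlinarith
  obtain ⟨s, hs⟩ : ∃ s : E (m + 1) → X, ∀ x, s (i x) = x := by
    have : Nonempty X := ⟨H.symm 0⟩
    exact ⟨invFun i, leftInverse_invFun hi⟩
  have hsl : ∀ x, LD (m + 1) s (i x) := fun x => ld_inverse hs (hil x)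
  set D : E (m + 1) → E (m + 1) := fun z => H (s z) with hD
  have hDi : ∀ x, D (i x) = H x := fun x => by simp only [hD, hs]
  have hDl : ∀ x, R < ‖H x‖ → LD (m + 1) D (i x) := fun x hx =>
    LD.comp_fun (g := H) (f := s) (by rw [hs]; exact hH x hx) (hsl x)
  have hDc : ∀ x, ContinuousAt D (i x) := fun x =>
    ContinuousAt.comp (g := H) H.continuous.continuousAt (hsl x).continuousAt
  have hopen : IsOpenEmbedding i := ld_isOpenEmbedding hi hil
  set φ : E (m + 1) → ℝ := fun z => th (R₁ ^ 2) (R₂ ^ 2) r (‖D z‖ ^ 2) with hφ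
  have hφi : ∀ x, φ (i x) = th (R₁ ^ 2) (R₂ ^ 2) r (‖H x‖ ^ 2) := fun x => by
    simp only [hφ, hDi]
  have hφs : ∀ z ∈ range i, ContDiffAt ℝ ∞ φ z := by
    rintro _ ⟨x, rfl⟩
    by_cases hx : R < ‖H x‖
    · have h1 : ContDiffAt ℝ ∞ D (i x) := (hDl x hx).contDiffAt
      exact ((contDiff_th _ _ r).comp (contDiff_norm_sq ℝ)).contDiffAt.comp (i x) h1
    · push Not at hx
      have h1 : ∀ᶠ z in 𝓝 (i x), ‖D z‖ < R₁ := by
        have h2 : ContinuousAt (fun z => ‖D z‖) (i x) := (hDc x).norm
        refine h2.eventually (gt_mem_nhds ?_)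
        simp only [hDi]
        linarith
      refine (contDiffAt_const (c := (-1 : ℝ))).congr_of_eventuallyEq ?_
      filter_upwards [h1] with z hz
      exact th_low hab (pow_le_pow_left₀ (norm_nonneg _) hz.le 2)
  have hφneg : ∀ x, ‖H x‖ < r → φ (i x) < 0 := fun x hx => by
    rw [hφi]
    exact th_neg (pow_lt_pow_left₀ hx (norm_nonneg _) two_ne_zero)
  have hφpos : ∀ x, r ≤ ‖H x‖ → φ (i x) = ‖H x‖ ^ 2 - r ^ 2 := fun x hx => by
    rw [hφi]
    exact th_high hab (pow_le_pow_left₀ (by linarith) (by linarith) 2)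
  have hφzero : ∀ x, φ (i x) = 0 ↔ ‖H x‖ = r := by
    intro x
    constructor
    · intro h
      rcases lt_or_ge ‖H x‖ r with h1 | h1
      · exact absurd h (hφneg x h1).ne
      · rw [hφpos x h1, sub_eq_zero] at h
        exact (pow_left_inj₀ (norm_nonneg _) hr0.le two_ne_zero).1 h
    · intro h
      rw [hφpos x h.ge, h, sub_self]
  have hcomp : IsCompact {z | z ∈ range i ∧ φ z ≤ 0} := by
    have h1 : {z | z ∈ range i ∧ φ z ≤ 0} = i '' (H ⁻¹' closedBall 0 r) := by
      ext z
      constructor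
      · rintro ⟨⟨x, rfl⟩, hx⟩
        refine ⟨x, ?_, rfl⟩
        rw [mem_preimage, mem_closedBall_zero_iff]
        by_contra hcon
        push Not at hcon
        rw [hφpos x hcon.le] at hx
        have := pow_lt_pow_left₀ hcon hr0.le two_ne_zero
        linarith
      · rintro ⟨x, hx, rfl⟩
        rw [mem_preimage, mem_closedBall_zero_iff] at hx
        refine ⟨⟨x, rfl⟩, ?_⟩
        rcases hx.lt_or_eq with h | h
        · exact (hφneg x h).le
        · exact ((hφzero x).2 h).le
    rw [h1]
    exact (H.isClosedEmbedding.isCompact_preimage (isCompact_closedBall 0 r)).image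
      hopen.continuous
  have hreg : ∀ z ∈ range i, φ z = 0 → fderiv ℝ φ z ≠ 0 := by
    rintro _ ⟨x, rfl⟩ hx hcon
    have hxr : ‖H x‖ = r := (hφzero x).1 hx
    have hlx : LD (m + 1) D (i x) := hDl x (by linarith)
    obtain ⟨A, hA⟩ := hlx.exists_equiv
    have h1 : φ =ᶠ[𝓝 (i x)] fun z => ‖D z‖ ^ 2 - r ^ 2 := by
      have h2 : ContinuousAt (fun z => ‖D z‖) (i x) := (hDc x).norm
      have h3 : ∀ᶠ z in 𝓝 (i x), R₂ < ‖D z‖ := h2.eventually (lt_mem_nhds (by
        simp only [hDi]
        linarith))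
      filter_upwards [h3] with z hz
      exact th_high hab (pow_le_pow_left₀ (by linarith) hz.le 2)
    have h4 : HasFDerivAt (fun z => ‖D z‖ ^ 2 - r ^ 2)
        ((2 • (innerSL ℝ (D (i x)))).comp (A : E (m + 1) →L[ℝ] E (m + 1))) (i x) := by
      have h5 : HasFDerivAt (fun w : E (m + 1) => ‖w‖ ^ 2) (2 • (innerSL ℝ (D (i x))))
          (D (i x)) := (hasStrictFDerivAt_norm_sq (D (i x))).hasFDerivAt
      exact (h5.comp (i x) hA).sub_const (r ^ 2)
    have h6 := (h4.congr_of_eventuallyEq h1).fderiv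
    rw [hcon] at h6
    have h7 := congrArg (fun L : E (m + 1) →L[ℝ] ℝ => L (A.symm (D (i x)))) h6
    simp only [_root_.zero_apply, ContinuousLinearMap.comp_apply,
      ContinuousLinearEquiv.coe_coe, ContinuousLinearEquiv.apply_symm_apply,
      _root_.smul_apply, innerSL_apply_apply, real_inner_self_eq_norm_sq, hDi, hxr,
      nsmul_eq_mul] at h7
    have h8 : (0 : ℝ) < (2 : ℕ) * r ^ 2 := by positivity
    exact absurd h7 h8.ne
  -- the embedding of the end
  set Q : E (m + 1) → E (m + 1) := fun w => i (H.symm w) with hQ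
  have hDQ : ∀ w, D (Q w) = w := fun w => by simp only [hQ, hDi, H.apply_symm_apply]
  have hQl : ∀ w : E (m + 1), R < ‖w‖ → LD (m + 1) Q w := by
    intro w hw
    have h1 : LD (m + 1) H (H.symm w) := hH _ (by rw [H.apply_symm_apply]; exact hw)
    have h2 : LD (m + 1) H.symm (H (H.symm w)) := ld_inverse (fun x => H.symm_apply_apply x) h1
    rw [H.apply_symm_apply] at h2
    exact LD.comp_fun (g := i) (f := H.symm) (hil _) h2
  have hst : ∀ y : E m, ‖stP r y‖ = r := fun y =>
    (pow_left_inj₀ (norm_nonneg _) hr0.le two_ne_zero).1 (norm_stP hr0 y)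
  have he0 : (r • (e0 : E (m + 1))) 0 = r := by simp
  have hQst : ∀ y, ContDiffAt ℝ ∞ (fun y : E m => Q (stP r y)) y := fun y =>
    ContDiffAt.comp (g := Q) (f := (stP r : E m → E (m + 1))) y
      (hQl _ (by rw [hst]; linarith)).contDiffAt (contDiff_stP hr0).contDiffAt
  obtain ⟨g, hg1, hg2, hg3, hg4⟩ := hMazur m (range i) φ (Q (r • e0)) hopen.isOpen_range hφs hcomp
    hreg ⟨_, rfl⟩ ((hφzero _).2 (by
      rw [H.apply_symm_apply, norm_smul, Moeb.norm_e0, mul_one, Real.norm_of_nonneg hr0.le]))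
    (fun K' _ hK's => by
      refine ⟨fun y => Q (stP r y), ?_, ?_, fun y => ?_, fun y => ?_, ?_⟩
      · intro y y' h
        have h1 : D (Q (stP r y)) = D (Q (stP r y')) := congrArg D h
        rw [hDQ, hDQ] at h1
        rw [← stT_stP hr0 y, h1, stT_stP hr0 y']
      · rw [contDiff_iff_contDiffAt]
        exact hQst
      · have h1 : DifferentiableAt ℝ (fun y => Q (stP r y)) y :=
          (hQst y).differentiableAt (by simp)
        have h2 : DifferentiableAt ℝ (fun z => (stT r (D z) : E m)) (Q (stP r y)) := by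
          have h3 : ContDiffAt ℝ ∞ D (Q (stP r y)) := by
            refine (hDl (H.symm (stP r y)) ?_).contDiffAt
            rw [H.apply_symm_apply, hst]; linarith
          have h4 : ContDiffAt ℝ ∞ (stT r : E (m + 1) → E m) (D (Q (stP r y))) := by
            refine contDiffAt_stT ?_
            rw [hDQ]
            exact (stP_zero_lt hr0 y).ne
          exact (h4.comp _ h3).differentiableAt (by simp)
        have h5 : HasFDerivAt (fun y => stT r (D (Q (stP r y))))
            ((fderiv ℝ (fun z => (stT r (D z) : E m)) (Q (stP r y))).comp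
              (fderiv ℝ (fun y => Q (stP r y)) y)) y :=
          HasFDerivAt.comp (g := fun z => (stT r (D z) : E m)) (f := fun y => Q (stP r y)) y
            h2.hasFDerivAt h1.hasFDerivAt
        have h6 : (fun y : E m => (stT r (D (Q (stP r y))) : E m)) = fun y => y := by
          funext y
          rw [hDQ, stT_stP hr0]
        rw [h6] at h5
        have h7 := h5.unique (hasFDerivAt_id y)
        intro v w hvw
        have h8 := congrArg (fun L : E m →L[ℝ] E m => L v) h7
        have h9 := congrArg (fun L : E m →L[ℝ] E m => L w) h7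
        simp only [ContinuousLinearMap.comp_apply, ContinuousLinearMap.id_apply] at h8 h9
        rw [← h8, ← h9, hvw]
      · refine ⟨⟨_, rfl⟩, (hφzero _).2 (by rw [H.apply_symm_apply, hst]), fun h => ?_⟩
        have h1 : D (Q (stP r y)) = D (Q (r • e0)) := congrArg D h
        rw [hDQ, hDQ] at h1
        have h2 := stP_zero_lt hr0 y
        rw [h1, he0] at h2
        exact lt_irrefl _ h2
      · intro z hz
        obtain ⟨⟨x, rfl⟩, hz2, hz3⟩ := hK's z hz
        have hxr := (hφzero x).1 hz2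
        have hx0 : H x 0 ≠ r := by
          intro h
          apply hz3
          have h4 := norm_sq_split (H x)
          have h5 : ‖tl (H x)‖ ^ 2 = 0 := by rw [h, hxr] at h4; linarith
          have h6 : tl (H x) = 0 := by
            rw [← norm_eq_zero]
            exact pow_eq_zero_iff (two_ne_zero) |>.1 h5
          have h7 : H x = r • e0 := by
            rw [← cn_tl (H x), h6, h, cn_eq]
            have h8 : (cn 0 (0 : E m) : E (m + 1)) = 0 := by
              rw [← inc_apply, map_zero]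
            rw [h8, add_zero]
          show i x = i (H.symm (r • e0))
          rw [← h7, H.symm_apply_apply]
        refine ⟨stT r (H x), ?_⟩
        show i (H.symm (stP r (stT r (H x)))) = i x
        rw [stP_stT hr0 (by rw [hxr]) hx0, H.symm_apply_apply])
    (i '' K) (hK.image hopen.continuous) (by
      rintro _ ⟨x, hx, rfl⟩
      exact ⟨⟨x, rfl⟩, hφneg x (hrK x hx)⟩)
  obtain ⟨p, hp, hpl⟩ := ld_lift (j := i) hi hil (p := g) (fun z => (hg4 z).1) hg2
  refine ⟨p, fun x y hxy => hg1 (by rw [← hp, ← hp, hxy]), hpl, fun x hx => ?_⟩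
  obtain ⟨z, hz⟩ := hg3 ⟨x, hx, rfl⟩
  exact ⟨z, hi (by rw [hp, hz])⟩

end Pool.Agent.U890.SB
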