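import Pool.Agent.N550.TS.All2
import Pool.Agent.N550.SH.Fin

/-!
# Smooth structures on the 4-ball: cells and homeomorphisms of the interiors
-/

set_option autoImplicit false

open Set Filter Topology Metric Function MeasureTheory
open scoped Manifold ContDiff

noncomputable section

namespace Pool.Agent.U890.SB

open Pool.Agent.Y522 Pool.Agent.N550.KH

/-! ### local diffeomorphisms between different models -/

section mixed

variable {E₁ E₂ E₃ H₁ H₂ H₃ : Type*} [NormedAddCommGroup E₁] [NormedSpace ℝ E₁]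
  [NormedAddCommGroup E₂] [NormedSpace ℝ E₂] [TopologicalSpace H₁] [TopologicalSpace H₂]
  {I₁ : ModelWithCorners ℝ E₁ H₁} {I₂ : ModelWithCorners ℝ E₂ H₂}
  {M N : Type*} [TopologicalSpace M] [ChartedSpace H₁ M] [TopologicalSpace N] [ChartedSpace H₂ N]

theorem ld_inverse {f : M → N} {g : N → M} (hgf : ∀ x, g (f x) = x) {x : M}
    (hf : IsLocalDiffeomorphAt I₁ I₂ ∞ f x) : IsLocalDiffeomorphAt I₂ I₁ ∞ g (f x) := by
  obtain ⟨Φ, hx, hΦ⟩ := hf
  refine ⟨Φ.symm, ?_, ?_⟩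
  · rw [hΦ hx]
    exact Φ.map_source hx
  · intro y hy
    have hy' : y ∈ Φ.target := hy
    have h1 : Φ.symm y ∈ Φ.source := Φ.map_target hy'
    have h2 : Φ (Φ.symm y) = y := Φ.right_inv hy'
    have h3 : f (Φ.symm y) = y := by rw [hΦ h1, h2]
    calc g y = g (f (Φ.symm y)) := by rw [h3]
      _ = Φ.symm y := hgf _

theorem ld_congr {f g : M → N} {x : M} (hf : IsLocalDiffeomorphAt I₁ I₂ ∞ f x)
    (h : g =ᶠ[𝓝 x] f) : IsLocalDiffeomorphAt I₁ I₂ ∞ g x := by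
  obtain ⟨Φ, hx, heq⟩ := hf
  obtain ⟨s, hs, hso, hxs⟩ := mem_nhds_iff.1 h
  let Ψ : PartialDiffeomorph I₁ I₂ M N ∞ :=
    { toPartialEquiv := (Φ.toOpenPartialHomeomorph.restrOpen s hso).toPartialEquiv
      open_source := (Φ.toOpenPartialHomeomorph.restrOpen s hso).open_source
      open_target := (Φ.toOpenPartialHomeomorph.restrOpen s hso).open_target
      contMDiffOn_toFun := by
        apply Φ.contMDiffOn_toFun.mono
        intro x hx
        rw [OpenPartialHomeomorph.restrOpen_source] at hx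
        exact hx.1
      contMDiffOn_invFun := by
        apply Φ.contMDiffOn_invFun.mono
        intro x hx
        exact hx.1 }
  have hsrc : Ψ.source = Φ.source ∩ s :=
    OpenPartialHomeomorph.restrOpen_source Φ.toOpenPartialHomeomorph s hso
  refine ⟨Ψ, ?_, ?_⟩
  · rw [hsrc]; exact ⟨hx, hxs⟩
  · intro y hy
    rw [hsrc] at hy
    show g y = Φ y
    rw [← heq hy.1]
    exact hs hy.2

theorem ld_eventually {f : M → N} {x : M} (hf : IsLocalDiffeomorphAt I₁ I₂ ∞ f x) :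
    ∀ᶠ y in 𝓝 x, IsLocalDiffeomorphAt I₁ I₂ ∞ f y := by
  obtain ⟨Φ, hx, hΦ⟩ := hf
  filter_upwards [Φ.open_source.mem_nhds hx] with y hy
  exact ⟨Φ, hy, hΦ⟩

theorem ld_isOpenEmbedding {f : M → N} (hi : Injective f)
    (hf : ∀ x, IsLocalDiffeomorphAt I₁ I₂ ∞ f x) : IsOpenEmbedding f := by
  refine IsOpenEmbedding.of_continuous_injective_isOpenMap
    (continuous_iff_continuousAt.2 fun x => (hf x).contMDiffAt.continuousAt) hi ?_
  rw [isOpenMap_iff_nhds_le]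
  intro x s hs
  rw [mem_map] at hs
  obtain ⟨Φ, hx, hΦ⟩ := hf x
  have h1 : Φ '' (Φ.source ∩ f ⁻¹' s) ∈ 𝓝 (Φ x) := by
    have h2 := Φ.toOpenPartialHomeomorph.image_mem_nhds (x := x) hx
      (s := Φ.source ∩ f ⁻¹' s) (inter_mem (Φ.open_source.mem_nhds hx) hs)
    exact h2
  rw [hΦ hx]
  refine mem_of_superset h1 ?_
  rintro _ ⟨y, ⟨hy1, hy2⟩, rfl⟩
  rw [← hΦ hy1]
  exact hy2

/-- maps into an open piece -/
theorem ld_lift {E₃ H₃ P : Type*} [NormedAddCommGroup E₃] [NormedSpace ℝ E₃] [TopologicalSpace H₃]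
    {I₃ : ModelWithCorners ℝ E₃ H₃} [TopologicalSpace P] [ChartedSpace H₃ P] {j : M → N}
    (hj : Injective j) (hl : ∀ x, IsLocalDiffeomorphAt I₁ I₂ ∞ j x) {p : P → N}
    (hp : ∀ z, p z ∈ range j) (hpl : ∀ z, IsLocalDiffeomorphAt I₃ I₂ ∞ p z) :
    ∃ p' : P → M, (∀ z, j (p' z) = p z) ∧ ∀ z, IsLocalDiffeomorphAt I₃ I₁ ∞ p' z := by
  choose p' hp' using hp
  refine ⟨p', hp', fun z => ?_⟩
  have : Nonempty M := ⟨p' z⟩
  have hs : ∀ x, invFun j (j x) = x := leftInverse_invFun hj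
  have h2 : IsLocalDiffeomorphAt I₂ I₁ ∞ (invFun j) (p z) := by
    rw [← hp']
    exact ld_inverse hs (hl (p' z))
  have h3 : IsLocalDiffeomorphAt I₃ I₁ ∞ (invFun j ∘ p) z := (hpl z).comp I₁ M h2
  have h4 : invFun j ∘ p = p' := by
    funext z
    show invFun j (p z) = p' z
    rw [← hp', hs]
  rwa [h4] at h3

end mixed

/-! ### the interior as a manifold without boundary -/

abbrev R4 : Type := EuclideanSpace ℝ (Fin 4)
abbrev H4 : Type := EuclideanHalfSpace 4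

theorem model (M : Type) [TopologicalSpace M] [ChartedSpace H4 M] [IsManifold (𝓡∂ 4) ∞ M] :
    ∃ (X : Type) (_ : TopologicalSpace X) (_ : ChartedSpace R4 X), IsManifold (𝓡 4) ∞ X ∧
      ∃ ι : X → M, IsOpenEmbedding ι ∧ range ι = (𝓡∂ 4).interior M ∧
        ∀ x, IsLocalDiffeomorphAt (𝓡 4) (𝓡∂ 4) ∞ ι x := by
  let _ := Pool.Agent.Y833.SH.csI (M := M) (𝓡∂ 4)
  refine ⟨(𝓡∂ 4).interior M, inferInstance, Pool.Agent.Y833.SH.csI (𝓡∂ 4),
    Pool.Agent.Y833.SH.mfI (𝓡∂ 4), Subtype.val, ?_, Subtype.range_val,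
    fun x => Pool.Agent.Y833.SH.ldiff_val (𝓡∂ 4) x⟩
  exact ld_isOpenEmbedding Subtype.val_injective fun x => Pool.Agent.Y833.SH.ldiff_val (𝓡∂ 4) x

/-- open cells in the interior -/
def Cell {M : Type} [TopologicalSpace M] [ChartedSpace H4 M] (c : R4 → M) : Prop :=
  Injective c ∧ (∀ z, c z ∈ (𝓡∂ 4).interior M) ∧
    ∀ z, IsLocalDiffeomorphAt (𝓡 4) (𝓡∂ 4) ∞ c z


theorem Cell.isOpenEmbedding {M : Type} [TopologicalSpace M] [ChartedSpace H4 M] {c : R4 → M}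
    (hc : Cell c) : IsOpenEmbedding c := ld_isOpenEmbedding hc.1 hc.2.2

section lift

variable {M X : Type} [TopologicalSpace M] [ChartedSpace H4 M] [TopologicalSpace X]
  [ChartedSpace R4 X] {ι : X → M}

theorem cell_push (hι : IsOpenEmbedding ι) (hr : range ι = (𝓡∂ 4).interior M)
    (hl : ∀ x, IsLocalDiffeomorphAt (𝓡 4) (𝓡∂ 4) ∞ ι x) {c : R4 → X} (hi : Injective c)
    (hc : ∀ z, LD 4 c z) : Cell fun z => ι (c z) := by
  refine ⟨hι.injective.comp hi, fun z => hr ▸ mem_range_self _, fun z => ?_⟩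
  exact (hc z).comp (𝓡∂ 4) M (hl (c z))

theorem cell_lift (hι : IsOpenEmbedding ι) (hr : range ι = (𝓡∂ 4).interior M)
    (hl : ∀ x, IsLocalDiffeomorphAt (𝓡 4) (𝓡∂ 4) ∞ ι x) {c : R4 → M} (hc : Cell c) :
    ∃ c' : R4 → X, Injective c' ∧ (∀ z, LD 4 c' z) ∧ ∀ z, ι (c' z) = c z := by
  have h1 : ∀ z, ∃ x, ι x = c z := fun z => by
    have := hc.2.1 z
    rw [← hr] at this
    exact this
  choose c' hc' using h1
  have : Nonempty X := ⟨c' 0⟩
  have hs : ∀ x, invFun ι (ι x) = x := leftInverse_invFun hι.injective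
  refine ⟨c', fun x y hxy => hc.1 (by rw [← hc', ← hc', hxy]), fun z => ?_, hc'⟩
  have h2 : IsLocalDiffeomorphAt (𝓡∂ 4) (𝓡 4) ∞ (invFun ι) (c z) := by
    rw [← hc']
    exact ld_inverse hs (hl (c' z))
  have h3 : IsLocalDiffeomorphAt (𝓡 4) (𝓡 4) ∞ (invFun ι ∘ c) z := (hc.2.2 z).comp (𝓡 4) X h2
  have h4 : invFun ι ∘ c = c' := by
    funext z
    show invFun ι (c z) = c' z
    rw [← hc', hs]
  rwa [h4] at h3

end lift

section restr

theorem restr {M N X Y : Type} [TopologicalSpace M] [TopologicalSpace N] [TopologicalSpace X]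
    [TopologicalSpace Y] {ι : X → M} {κ : Y → N} (hι : IsOpenEmbedding ι)
    (hκ : IsOpenEmbedding κ) (g : M ≃ₜ N) (h : ∀ x, x ∈ range ι ↔ g x ∈ range κ) :
    ∃ f : X ≃ₜ Y, ∀ x, κ (f x) = g (ι x) := by
  refine ⟨(hι.isEmbedding.toHomeomorph.trans (g.subtype h)).trans
    hκ.isEmbedding.toHomeomorph.symm, fun x => ?_⟩
  have h1 : ∀ y : range κ, κ (hκ.isEmbedding.toHomeomorph.symm y) = y := by
    intro y
    have h2 := hκ.isEmbedding.toHomeomorph.apply_symm_apply y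
    exact congrArg Subtype.val h2
  exact h1 _

end restr

section smooth

variable {M N : Type} [TopologicalSpace M] [ChartedSpace H4 M] [TopologicalSpace N]
  [ChartedSpace H4 N]

/-- smooth near a point -/
def SmN (g : M → N) (x : M) : Prop := ∀ᶠ y in 𝓝 x, ContMDiffAt (𝓡∂ 4) (𝓡∂ 4) ∞ g y

/-- sets with one-dimensional Hausdorff measure zero in all the open cells -/
def Null1 (B : Set N) : Prop :=
  ∀ c : R4 → N, Cell c → Measure.hausdorffMeasure 1 (c ⁻¹' B : Set R4) = 0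

theorem smooth_restr {X Y : Type} [TopologicalSpace X] [ChartedSpace R4 X] [TopologicalSpace Y]
    [ChartedSpace R4 Y] {ι : X → M} {κ : Y → N} (hι : IsOpenEmbedding ι)
    (hlι : ∀ x, IsLocalDiffeomorphAt (𝓡 4) (𝓡∂ 4) ∞ ι x) (hκ : IsOpenEmbedding κ)
    (hlκ : ∀ x, IsLocalDiffeomorphAt (𝓡 4) (𝓡∂ 4) ∞ κ x) (g : M → N) (f : X → Y)
    (h : ∀ x, κ (f x) = g (ι x)) {x : X} (hx : SmN g (ι x)) :
    ∀ᶠ y in 𝓝 x, ContMDiffAt (𝓡 4) (𝓡 4) ∞ f y := by
  have : Nonempty Y := ⟨f x⟩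
  have hs : ∀ y, invFun κ (κ y) = y := leftInverse_invFun hκ.injective
  filter_upwards [hι.continuous.continuousAt.eventually hx] with y hy
  have h1 : ContMDiffAt (𝓡 4) (𝓡∂ 4) ∞ (fun x => g (ι x)) y :=
    ContMDiffAt.comp (g := g) y hy (hlι y).contMDiffAt
  have h2 : ContMDiffAt (𝓡∂ 4) (𝓡 4) ∞ (invFun κ) (g (ι y)) := by
    rw [← h]
    exact (ld_inverse hs (hlκ (f y))).contMDiffAt
  have h3 : ContMDiffAt (𝓡 4) (𝓡 4) ∞ (fun x => invFun κ (g (ι x))) y :=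
    ContMDiffAt.comp (g := invFun κ) y h2 h1
  have h4 : (fun x => invFun κ (g (ι x))) = f := by
    funext x
    rw [← h, hs]
  rwa [h4] at h3

/-- **Preimages of cells under homeomorphisms which are smooth off an exceptional set.** -/
theorem smooth_cell [T2Space M] [IsManifold (𝓡∂ 4) ∞ M] [IsManifold (𝓡∂ 4) ∞ N] (g : M ≃ₜ N)
    (hint : ∀ x, x ∈ (𝓡∂ 4).interior M ↔ g x ∈ (𝓡∂ 4).interior N)
    (hB : Null1 (g '' {x | x ∈ (𝓡∂ 4).interior M ∧ ¬ SmN g x})) (c : R4 → N) (hc : Cell c) :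
    ∃ c' : R4 → M, Cell c' ∧ range c' = g ⁻¹' range c := by
  obtain ⟨X, _, _, _, ι, hι, hrι, hlι⟩ := model M
  obtain ⟨Y, _, _, _, κ, hκ, hrκ, hlκ⟩ := model N
  have : T2Space X := hι.isEmbedding.t2Space
  obtain ⟨f, hf⟩ := restr hι hκ g (by rw [hrι, hrκ]; exact hint)
  obtain ⟨c₁, h1, h2, h3⟩ := cell_lift hκ hrκ hlκ hc
  have hnull : NullH 4 (f '' Bad 4 f) := by
    intro h hh1 hh2
    refine measure_mono_null ?_ (hB _ (cell_push hκ hrκ hlκ hh1 hh2))
    rintro z ⟨x, hx, hxz⟩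
    refine ⟨ι x, ⟨hrι ▸ mem_range_self x, fun hcon => hx ?_⟩, ?_⟩
    · exact smooth_restr hι hlι hκ hlκ g f hf hcon
    · rw [← hf, hxz]
  obtain ⟨c₂, h4, h5, h6⟩ := Cell.main 4 X Y f c₁ hnull h1 h2
  refine ⟨fun z => ι (c₂ z), cell_push hι hrι hlι h4 h5, ?_⟩
  ext x
  constructor
  · rintro ⟨z, rfl⟩
    have h7 : c₂ z ∈ f ⁻¹' range c₁ := h6 ▸ mem_range_self z
    obtain ⟨w, hw⟩ := h7
    exact ⟨w, by rw [← hf, ← hw, h3]⟩
  · rintro ⟨w, hw⟩
    have h7 : x ∈ (𝓡∂ 4).interior M := by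
      rw [hint, ← hw]
      exact hc.2.1 w
    rw [← hrι] at h7
    obtain ⟨y, rfl⟩ := h7
    have h8 : κ (f y) = κ (c₁ w) := by rw [hf, h3, hw]
    have h9 : y ∈ f ⁻¹' range c₁ := ⟨w, (hκ.injective h8).symm⟩
    rw [← h6] at h9
    obtain ⟨z, hz⟩ := h9
    exact ⟨z, by rw [← hz]⟩

/-- **Preimages of cells under limits.** -/
theorem limit_cell [T2Space M] [IsManifold (𝓡∂ 4) ∞ M] [T2Space N] [IsManifold (𝓡∂ 4) ∞ N]
    (g : M ≃ₜ N) (hint : ∀ x, x ∈ (𝓡∂ 4).interior M ↔ g x ∈ (𝓡∂ 4).interior N)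
    (hlim : ∀ O : Set (M × N), IsOpen O → (∀ x, (x, g x) ∈ O) → ∃ g' : M ≃ₜ N,
      (∀ x, (x, g' x) ∈ O) ∧ ∀ c : R4 → N, Cell c → ∃ c' : R4 → M, Cell c' ∧
        range c' = g' ⁻¹' range c)
    (c : R4 → N) (hc : Cell c) : ∃ c' : R4 → M, Cell c' ∧ range c' = g ⁻¹' range c := by
  obtain ⟨X, _, _, _, ι, hι, hrι, hlι⟩ := model M
  have : T2Space X := hι.isEmbedding.t2Space
  have hce := hc.isOpenEmbedding
  let U : TopologicalSpace.Opens X := ⟨ι ⁻¹' (g ⁻¹' range c),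
    (hce.isOpen_range.preimage g.continuous).preimage hι.continuous⟩
  have hUe : IsOpenEmbedding (fun u : U => ι u.1) := hι.comp U.isOpen.isOpenEmbedding_subtypeVal
  have hUl : ∀ u : U, IsLocalDiffeomorphAt (𝓡 4) (𝓡∂ 4) ∞ (fun u : U => ι u.1) u := fun u =>
    (Pool.Agent.N550.SH.ld_opens U u).comp (𝓡∂ 4) M (hlι u.1)
  have hUr : range (fun u : U => ι u.1) = g ⁻¹' range c := by
    ext x
    constructor
    · rintro ⟨u, rfl⟩
      exact u.2
    · intro hx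
      have h7 : x ∈ (𝓡∂ 4).interior M := by
        rw [hint]
        obtain ⟨w, hw⟩ := hx
        rw [← hw]
        exact hc.2.1 w
      rw [← hrι] at h7
      obtain ⟨y, rfl⟩ := h7
      exact ⟨⟨y, hx⟩, rfl⟩
  obtain ⟨H, -⟩ := restr hUe hce g (by rw [hUr]; exact fun x => Iff.rfl)
  have : SigmaCompactSpace U := H.isClosedEmbedding.sigmaCompactSpace
  have hEng : Eng 4 U := by
    intro K hK
    have hK' : IsCompact ((fun u : U => ι u.1) '' K) := hK.image hUe.continuous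
    have hgK : IsCompact (g '' ((fun u : U => ι u.1) '' K)) := hK'.image g.continuous
    have hsub : g '' ((fun u : U => ι u.1) '' K) ⊆ range c := by
      rintro _ ⟨_, ⟨u, -, rfl⟩, rfl⟩
      exact u.2
    have hcK : IsCompact (c ⁻¹' (g '' ((fun u : U => ι u.1) '' K))) :=
      hce.isInducing.isCompact_preimage' hgK hsub
    obtain ⟨ρ, hρ0, hρ⟩ : ∃ ρ : ℝ, 0 < ρ ∧ c ⁻¹' (g '' ((fun u : U => ι u.1) '' K)) ⊆
        ball 0 ρ := by
      obtain ⟨r, hr⟩ := hcK.isBounded.subset_ball (0 : R4)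
      exact ⟨max r 1, lt_max_of_lt_right one_pos, hr.trans (ball_subset_ball (le_max_left _ _))⟩
    have hc2 : Cell fun z => c (Pool.Agent.N550.KH.End.jb ρ z) := by
      refine ⟨hc.1.comp (Pool.Agent.N550.KH.End.jb_inj ρ hρ0), fun z => hc.2.1 _, fun z => ?_⟩
      exact (Pool.Agent.N550.KH.End.jb_LD ρ hρ0 z).comp (𝓡∂ 4) N (hc.2.2 _)
    have hc2r : range (fun z => c (Pool.Agent.N550.KH.End.jb ρ z)) = c '' ball 0 ρ := by
      ext y
      constructor
      · rintro ⟨z, rfl⟩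
        exact ⟨_, mem_ball_zero_iff.2 (Pool.Agent.N550.KH.End.jb_norm ρ hρ0 z), rfl⟩
      · rintro ⟨w, hw, rfl⟩
        obtain ⟨z, hz⟩ := Pool.Agent.N550.KH.End.jb_surj ρ hρ0 w (mem_ball_zero_iff.1 hw)
        exact ⟨z, by simp only [hz]⟩
    have hV : IsOpen (c '' ball 0 ρ) := hce.isOpenMap _ isOpen_ball
    have hC : IsClosed (c '' closedBall 0 ρ) :=
      ((isCompact_closedBall 0 ρ).image hce.continuous).isClosed
    set O : Set (M × N) := {q | q.1 ∉ (fun u : U => ι u.1) '' K ∨ q.2 ∈ c '' ball 0 ρ} ∩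
      {q | q.2 ∉ c '' closedBall 0 ρ ∨ g q.1 ∈ range c} with hO
    have hOo : IsOpen O := by
      refine IsOpen.inter ?_ ?_
      · exact (hK'.isClosed.isOpen_compl.preimage continuous_fst).union
          (hV.preimage continuous_snd)
      · exact (hC.isOpen_compl.preimage continuous_snd).union
          (hce.isOpen_range.preimage (g.continuous.comp continuous_fst))
    have hgO : ∀ x, (x, g x) ∈ O := by
      intro x
      refine ⟨?_, ?_⟩
      · by_cases hx : x ∈ (fun u : U => ι u.1) '' K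
        · right
          obtain ⟨w, hw⟩ := hsub ⟨x, hx, rfl⟩
          refine ⟨w, hρ ?_, hw⟩
          show c w ∈ g '' ((fun u : U => ι u.1) '' K)
          rw [hw]
          exact ⟨x, hx, rfl⟩
        · exact Or.inl hx
      · by_cases hx : g x ∈ c '' closedBall 0 ρ
        · right
          obtain ⟨w, -, hw⟩ := hx
          exact ⟨w, hw⟩
        · exact Or.inl hx
    obtain ⟨g', hg', hcell⟩ := hlim O hOo hgO
    obtain ⟨p, hp, hpr⟩ := hcell _ hc2
    rw [hc2r] at hpr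
    have hp1 : ∀ z, p z ∈ range (fun u : U => ι u.1) := by
      intro z
      rw [hUr]
      have h1 : g' (p z) ∈ c '' ball 0 ρ := by
        have : p z ∈ g' ⁻¹' (c '' ball 0 ρ) := hpr ▸ mem_range_self z
        exact this
      have h2 := (hg' (p z)).2
      rcases h2 with h2 | h2
      · exact absurd (image_mono ball_subset_closedBall h1) h2
      · exact h2
    obtain ⟨p', hp', hpl⟩ := ld_lift hUe.injective hUl hp1 hp.2.2
    refine ⟨p', fun x y hxy => hp.1 (by rw [← hp', ← hp', hxy]), hpl, ?_⟩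
    intro u hu
    have h3 : g' (ι u.1) ∈ c '' ball 0 ρ := by
      rcases (hg' (ι u.1)).1 with h | h
      · exact absurd ⟨u, hu, rfl⟩ h
      · exact h
    have h4 : ι u.1 ∈ range p := by rw [hpr]; exact h3
    obtain ⟨z, hz⟩ := h4
    refine ⟨z, hUe.injective ?_⟩
    show ι (p' z).1 = ι u.1
    rw [← hz]
    exact hp' z
  obtain ⟨Φ⟩ := Pool.Agent.Y496.SH.monotone (Pool.Agent.Y784.SH.ext Pool.Agent.Y248.SH.germ) 4 U
    hEng
  refine ⟨fun z => ι (Φ.symm z).1, ⟨hUe.injective.comp Φ.symm.injective, fun z => ?_, fun z => ?_⟩,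
    ?_⟩
  · rw [← hrι]
    exact mem_range_self _
  · exact (Φ.symm.isLocalDiffeomorph z).comp (𝓡∂ 4) M (hUl (Φ.symm z))
  · rw [← hUr]
    ext x
    constructor
    · rintro ⟨z, rfl⟩
      exact ⟨Φ.symm z, rfl⟩
    · rintro ⟨u, rfl⟩
      exact ⟨Φ u, by simp⟩

end smooth

end Pool.Agent.U890.SB
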